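import Pool.Agent.W593.ZT.Stm

/-!
Project ZT (helper593), TREE2: a full cover gives a zero-sum tree.
-/

open scoped Classical

set_option autoImplicit false

namespace Pool.Agent.W179.ZT

open Pool.Agent.W593.ZT

theorem tree2 (hT : S_TREE) : S_TREE2 := by
  intro V G _ _ c hc H Z A hH hZ hA hCov
  obtain ⟨g, hg⟩ := hH
  obtain ⟨r0, hr0⟩ : ∃ r0 : V → G, ∀ z ∈ Z, r0 z ∈ A z := by
    refine ⟨fun z => if h : z ∈ Z then (hA z h).1.choose else 0, fun z hz => ?_⟩
    simp only [dif_pos hz]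
    exact (hA z hz).1.choose_spec
  obtain ⟨s, hs⟩ : ∃ s : G, s = -(∑ z ∈ (Finset.univ \ H) \ Z, c z g + ∑ h ∈ H.erase g, c h g) :=
    ⟨_, rfl⟩
  obtain ⟨r, ⟨r', hr', hr⟩, hsr⟩ := hCov r0 hr0 s (AddSubgroup.mem_top _)
  rw [AddSubgroup.mem_bot, sub_eq_zero] at hsr
  refine hT V G c hc H g (fun z => if z ∈ Z then r' z else c z g) hg ?_ ?_
  · intro z hz
    by_cases h : z ∈ Z
    · simp only [if_pos h]
      exact (hA z h).2 (hr' z h)
    · simp only [if_neg h]
      unfold Cs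
      exact Finset.mem_image_of_mem _ hg
  · have h1 : ∑ z ∈ Finset.univ \ H, (if z ∈ Z then r' z else c z g) =
        ∑ z ∈ (Finset.univ \ H) \ Z, c z g + ∑ z ∈ Z, r' z := by
      rw [← Finset.sum_sdiff hZ]
      congr 1
      · exact Finset.sum_congr rfl fun z hz => if_neg (Finset.mem_sdiff.1 hz).2
      · exact Finset.sum_congr rfl fun z hz => if_pos hz
    rw [h1, ← hr, ← hsr, hs]
    abel

end Pool.Agent.W179.ZT
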